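import Pool.Agent.Helper80.HD.GoalsB

set_option autoImplicit false

open MvPolynomial Filter Topology

noncomputable section

namespace Pool.Agent.Helper6.HD

open Pool.Agent.Helper80.HD
open scoped NNReal

/-! ### extension of a valuation of `K[U]` to `K(u)` -/

theorem exists_ext {ι : Type} (K : Type) [Field K] [Algebra K ℂ] (u : ι → ℂ) (hu : AlgebraicIndependent K u)
    (v : Valuation (MvPolynomial ι K) ℝ≥0) (hv : ∀ P, P ≠ 0 → v P ≠ 0) :
    ∃ ω : AbsoluteValue (LK K u) ℝ, IsNonarchimedean ω ∧ ∀ P : MvPolynomial ι K, ω (aeval (uL K u) P) = v P := by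
  classical
  have hS : nonZeroDivisors (MvPolynomial ι K) ≤ v.supp.primeCompl := by
    intro P hP
    have hP0 : P ≠ 0 := nonZeroDivisors.ne_zero hP
    intro h
    exact hv P hP0 (v.mem_supp_iff P |>.1 h)
  let w : Valuation (FractionRing (MvPolynomial ι K)) ℝ≥0 :=
    v.extendToLocalization hS (FractionRing (MvPolynomial ι K))
  let w' : Valuation (LK K u) ℝ≥0 := w.comap (hu.aevalEquivField.symm : LK K u →+* FractionRing (MvPolynomial ι K))
  have hw' : ∀ P : MvPolynomial ι K, w' (aeval (uL K u) P) = v P := by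
    intro P
    have h1 : hu.aevalEquivField (algebraMap _ _ P) = aeval (uL K u) P := by
      apply Subtype.ext
      rw [hu.aevalEquivField_algebraMap_apply_coe]
      have := MvPolynomial.aeval_algebraMap_apply (B := ℂ) (uL K u) P
      exact this
    have h2 : (hu.aevalEquivField.symm (aeval (uL K u) P)) = algebraMap _ _ P := by
      rw [← h1]; simp
    change w (hu.aevalEquivField.symm (aeval (uL K u) P)) = v P
    rw [h2]
    exact v.extendToLocalization_apply_map_apply hS _ P
  refine ⟨{ toFun := fun x => (w' x : ℝ)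
            map_mul' := fun x y => by rw [map_mul]; push_cast; rfl
            nonneg' := fun x => NNReal.coe_nonneg _
            eq_zero' := fun x => by
              rw [NNReal.coe_eq_zero]; exact w'.zero_iff
            add_le' := fun x y => by
              have := w'.map_add x y
              have h3 : w' (x + y) ≤ w' x + w' y := this.trans (max_le (by simp) (by simp))
              exact_mod_cast h3 }, ?_, ?_⟩
  · intro x y
    have := w'.map_add x y
    change (w' (x + y) : ℝ) ≤ max (w' x : ℝ) (w' y : ℝ)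
    rw [← NNReal.coe_max]
    exact_mod_cast this
  · intro P
    change (w' (aeval (uL K u) P) : ℝ) = v P
    rw [hw']

/-! ### the valuation of a prime element of a UFD -/

theorem exists_val {A : Type} [CommRing A] [IsDomain A] [WfDvdMonoid A] (p : A) (hp : Prime p) :
    ∃ v : Valuation A ℝ≥0, (∀ a, a ≠ 0 → v a ≠ 0) ∧ (∀ a, v a ≤ 1) ∧ (∀ a, v a = 1 ↔ ¬ p ∣ a) := by
  classical
  have hfin : ∀ a : A, a ≠ 0 → FiniteMultiplicity p a := fun a ha =>
    FiniteMultiplicity.of_not_isUnit hp.not_isUnit ha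
  let f : A → ℝ≥0 := fun a => if a = 0 then 0 else (1 / 2 : ℝ≥0) ^ multiplicity p a
  have hf : ∀ a, a ≠ 0 → f a = (1 / 2 : ℝ≥0) ^ multiplicity p a := fun a ha => if_neg ha
  have hhalf : (0 : ℝ≥0) < 1 / 2 := by positivity
  have hhalf1 : (1 / 2 : ℝ≥0) ≤ 1 := by
    rw [← NNReal.coe_le_coe]; norm_num
  have hle1 : ∀ a, f a ≤ 1 := by
    intro a
    by_cases ha : a = 0
    · simp [f, ha]
    · rw [hf a ha]; exact pow_le_one₀ hhalf.le hhalf1
  let v : Valuation A ℝ≥0 :=
    { toFun := f
      map_zero' := by simp [f]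
      map_one' := by
        rw [hf 1 one_ne_zero]
        rw [show multiplicity p (1 : A) = 0 from by
          apply multiplicity_eq_zero.2
          exact fun h => hp.not_isUnit (isUnit_of_dvd_one h)]
        simp
      map_mul' := by
        intro x y
        by_cases hx : x = 0
        · simp [f, hx]
        by_cases hy : y = 0
        · simp [f, hy]
        rw [hf x hx, hf y hy, hf (x * y) (mul_ne_zero hx hy)]
        rw [multiplicity_mul hp (hfin _ (mul_ne_zero hx hy)), pow_add]
      map_add_le_max' := by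
        intro x y
        by_cases hx : x = 0
        · simp [f, hx]
        by_cases hy : y = 0
        · simp [f, hy]
        by_cases hxy : x + y = 0
        · simp [f, hxy]
        rw [hf x hx, hf y hy, hf (x + y) hxy]
        have h1 : min (multiplicity p x) (multiplicity p y) ≤ multiplicity p (x + y) := by
          have h2 := min_le_emultiplicity_add (p := p) (a := x) (b := y)
          rw [(hfin x hx).emultiplicity_eq_multiplicity, (hfin y hy).emultiplicity_eq_multiplicity,
            (hfin _ hxy).emultiplicity_eq_multiplicity] at h2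
          rw [← Nat.cast_le (α := ℕ∞)]
          refine le_trans (le_of_eq ?_) h2
          exact Nat.mono_cast.map_min
        rcases min_le_iff.1 h1 with h | h
        · exact le_max_of_le_left (pow_le_pow_of_le_one hhalf.le hhalf1 h)
        · exact le_max_of_le_right (pow_le_pow_of_le_one hhalf.le hhalf1 h) }
  refine ⟨v, ?_, ?_, ?_⟩
  · intro a ha
    change f a ≠ 0
    rw [hf a ha]
    exact (pow_pos hhalf _).ne'
  · exact hle1
  · intro a
    change f a = 1 ↔ _
    by_cases ha : a = 0
    · simp [f, ha]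
    · rw [hf a ha]
      constructor
      · intro h hd
        have h1 : multiplicity p a ≠ 0 := by
          intro h0
          exact (multiplicity_eq_zero.1 h0) hd
        have h2 : (1 / 2 : ℝ≥0) ^ multiplicity p a < 1 := by
          apply pow_lt_one₀ hhalf.le _ h1
          rw [← NNReal.coe_lt_coe]; norm_num
        exact h2.ne h
      · intro h
        rw [multiplicity_eq_zero.2 h]; simp

/-! ### the two views of a polynomial in `k + 1` blocks -/

section views

variable (K : Type) [Field K] (k N : ℕ)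

/-- block `0` against the others -/
def blk : Fin (k + 1) × Fin (N + 1) → Fin (N + 1) ⊕ (Fin k × Fin (N + 1)) := fun q =>
  Fin.cases (motive := fun _ => Fin (N + 1) ⊕ (Fin k × Fin (N + 1))) (Sum.inl q.2) (fun i => Sum.inr (i, q.2)) q.1

/-- the inverse of `blk` -/
def unblk : Fin (N + 1) ⊕ (Fin k × Fin (N + 1)) → Fin (k + 1) × Fin (N + 1) :=
  Sum.elim (fun j => (0, j)) (fun q => (q.1.succ, q.2))

theorem unblk_blk (q : Fin (k + 1) × Fin (N + 1)) : unblk k N (blk k N q) = q := by
  obtain ⟨i, j⟩ := q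
  refine Fin.cases ?_ (fun i => ?_) i <;> simp [blk, unblk]

theorem blk_unblk (q : Fin (N + 1) ⊕ (Fin k × Fin (N + 1))) : blk k N (unblk k N q) = q := by
  rcases q with j | ⟨i, j⟩ <;> simp [blk, unblk]

/-- the equivalence -/
def blkEquiv : Fin (k + 1) × Fin (N + 1) ≃ Fin (N + 1) ⊕ (Fin k × Fin (N + 1)) where
  toFun := blk k N
  invFun := unblk k N
  left_inv := unblk_blk k N
  right_inv := blk_unblk k N

/-- `K[t, U] = K[U][t]` -/
def vw : MvPolynomial (Fin (k + 1) × Fin (N + 1)) K ≃ₐ[K]
    MvPolynomial (Fin (N + 1)) (MvPolynomial (Fin k × Fin (N + 1)) K) :=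
  (renameEquiv K (blkEquiv k N)).trans (sumAlgEquiv K (Fin (N + 1)) (Fin k × Fin (N + 1)))

theorem vw_X_zero (j : Fin (N + 1)) : vw K k N (X (0, j)) = X j := by
  simp [vw, blkEquiv, blk]

theorem vw_X_succ (i : Fin k) (j : Fin (N + 1)) : vw K k N (X (i.succ, j)) = C (X (i, j)) := by
  simp [vw, blkEquiv, blk]

theorem vw_up (R : MvPolynomial (Fin k × Fin (N + 1)) K) : vw K k N (up K R) = C R := by
  unfold up
  have : ((vw K k N : MvPolynomial (Fin (k + 1) × Fin (N + 1)) K →ₐ[K] _).comp
      (rename (fun q : Fin k × Fin (N + 1) => (q.1.succ, q.2)))) =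
      (IsScalarTower.toAlgHom K (MvPolynomial (Fin k × Fin (N + 1)) K)
        (MvPolynomial (Fin (N + 1)) (MvPolynomial (Fin k × Fin (N + 1)) K))) := by
    apply MvPolynomial.algHom_ext
    rintro ⟨i, j⟩
    simp [vw_X_succ]
  exact DFunLike.congr_fun this R

variable [Algebra K ℂ]

theorem sub_eq_map {R : Type} [CommRing R] [Algebra K R] (u : Fin k × Fin (N + 1) → R)
    (P : MvPolynomial (Fin (k + 1) × Fin (N + 1)) K) :
    Pool.Agent.Helper80.HD.sub K u P = map (aeval u : MvPolynomial (Fin k × Fin (N + 1)) K →ₐ[K] R).toRingHom (vw K k N P) := by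
  have : (Pool.Agent.Helper80.HD.sub K u) =
      (mapAlgHom (aeval u : MvPolynomial (Fin k × Fin (N + 1)) K →ₐ[K] R)).comp
        (vw K k N : MvPolynomial (Fin (k + 1) × Fin (N + 1)) K →ₐ[K] _) := by
    apply MvPolynomial.algHom_ext
    rintro ⟨i, j⟩
    refine Fin.cases ?_ (fun i => ?_) i
    · simp [Pool.Agent.Helper80.HD.sub, vw_X_zero]
    · simp [Pool.Agent.Helper80.HD.sub, vw_X_succ]
  exact DFunLike.congr_fun this P

end views

theorem degreeOf_up (K : Type) [Field K] (k N : ℕ) (R : MvPolynomial (Fin k × Fin (N + 1)) K) (j : Fin (N + 1)) :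
    (up K R : MvPolynomial (Fin (k + 1) × Fin (N + 1)) K).degreeOf (0, j) = 0 := by
  classical
  by_contra h
  have h0 : 0 < (up K R : MvPolynomial (Fin (k + 1) × Fin (N + 1)) K).degreeOf (0, j) := Nat.pos_of_ne_zero h
  rw [degreeOf_eq_sup, Finset.lt_sup_iff] at h0
  obtain ⟨m, hm, hm0⟩ := h0
  have h1 : ((0, j) : Fin (k + 1) × Fin (N + 1)) ∈ (up K R).vars := by
    rw [mem_vars]
    exact ⟨m, hm, by simpa [Finsupp.mem_support_iff] using hm0.ne'⟩
  have h2 := vars_rename _ _ h1
  rw [Finset.mem_image] at h2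
  obtain ⟨q, -, hq⟩ := h2
  have := congrArg Prod.fst hq
  exact Fin.succ_ne_zero _ this

/-- an irreducible polynomial that involves the block `0` has a coefficient polynomial not divisible by `π` -/
theorem exists_coeff (K : Type) [Field K] (k N : ℕ) (P : MvPolynomial (Fin (k + 1) × Fin (N + 1)) K)
    (hP : Irreducible P) (hd : ∃ j, 0 < P.degreeOf (0, j)) (p : MvPolynomial (Fin k × Fin (N + 1)) K)
    (hp : Prime p) : ∃ s, ¬ p ∣ (vw K k N P).coeff s := by
  by_contra hcon
  push Not at hcon
  have h1 : C p ∣ vw K k N P := (C_dvd_iff_dvd_coeff _ _).2 hcon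
  have hirr : Irreducible (vw K k N P) := (MulEquiv.irreducible_iff (vw K k N)).2 hP
  obtain ⟨q, hq⟩ := h1
  rcases hirr.isUnit_or_isUnit hq with h | h
  · have h2 : IsUnit p := by
      have := h.map (constantCoeff (R := MvPolynomial (Fin k × Fin (N + 1)) K) (σ := Fin (N + 1)))
      simpa using this
    exact hp.not_isUnit h2
  · obtain ⟨r, hr, hr'⟩ := isUnit_iff_eq_C_of_isReduced.1 h
    have h3 : vw K k N P = vw K k N (up K (p * r)) := by
      rw [hq, vw_up, hr', C_mul]
    have h4 : P = up K (p * r) := (vw K k N).injective h3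
    obtain ⟨j, hj⟩ := hd
    rw [h4, degreeOf_up] at hj
    exact absurd hj (lt_irrefl _)

/-! ### the main statement -/

theorem mem_PiAbs (hg : S_GNM) (K : Type) [Field K] [Algebra K ℂ] (k N : ℕ) (u : Fin k × Fin (N + 1) → ℂ)
    (hu : AlgebraicIndependent K u) (p : MvPolynomial (Fin k × Fin (N + 1)) K) (hp : Prime p) :
    ∃ ω ∈ PiAbs K u, (∀ R : MvPolynomial (Fin k × Fin (N + 1)) K, ω (aeval (uL K u) R) ≤ 1) ∧
      ∀ R : MvPolynomial (Fin k × Fin (N + 1)) K, ω (aeval (uL K u) R) = 1 ↔ ¬ p ∣ R := by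
  obtain ⟨v, hv0, hv1, hv2⟩ := exists_val p hp
  obtain ⟨ω, hω, hωv⟩ := exists_ext K u hu v hv0
  have hle : ∀ R : MvPolynomial (Fin k × Fin (N + 1)) K, ω (aeval (uL K u) R) ≤ 1 := by
    intro R; rw [hωv]; exact_mod_cast hv1 R
  have hiff : ∀ R : MvPolynomial (Fin k × Fin (N + 1)) K, ω (aeval (uL K u) R) = 1 ↔ ¬ p ∣ R := by
    intro R; rw [hωv, NNReal.coe_eq_one]; exact hv2 R
  refine ⟨ω, ⟨hω, ?_, ?_⟩, hle, hiff⟩
  · intro c hc
    have h1 : algebraMap K (LK K u) c = aeval (uL K u) (C c : MvPolynomial (Fin k × Fin (N + 1)) K) := by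
      simp
    rw [h1, hiff]
    intro hd
    exact hp.not_isUnit (isUnit_of_dvd_unit hd ((isUnit_iff_ne_zero.2 hc).map C))
  · intro P e hP hd
    obtain ⟨s, hs⟩ := exists_coeff K k N P hP hd p hp
    have hcoeff : ∀ s, (Pool.Agent.Helper80.HD.sub K (uL K u) P).coeff s =
        aeval (uL K u) ((vw K k N P).coeff s) := by
      intro s
      rw [sub_eq_map, coeff_map]
      rfl
    have hne : Pool.Agent.Helper80.HD.sub K (uL K u) P ≠ 0 := by
      intro h0
      have h1 := hcoeff s
      rw [h0, coeff_zero] at h1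
      have h2 := (hiff _).2 hs
      rw [← h1] at h2
      simp at h2
    have hgn : gn ω (Pool.Agent.Helper80.HD.sub K (uL K u) P) = 1 := by
      obtain ⟨h1, h2, -⟩ := hg
      obtain ⟨-, -, -, hle', hex, -⟩ := h2 (LK K u) (Fin (N + 1)) ω
      apply le_antisymm
      · obtain ⟨s', -, hs'⟩ := hex _ hne
        rw [hs', hcoeff]; exact hle _
      · rw [← (hiff _).2 hs, ← hcoeff]
        exact hle' _ s
    rw [map_pow, (hg.1 (LK K u) (Fin (N + 1)) ω hω).2.1, hgn, one_pow]

theorem cpi (hg : S_GNM) : S_CPI := by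
  classical
  intro K _ _ k N u hu κ hκ
  set A := MvPolynomial (Fin k × Fin (N + 1)) K with hA
  -- reduced fraction
  obtain ⟨R, S, hS0, hrel, hfrac⟩ : ∃ R S : A, S ≠ 0 ∧ IsRelPrime R S ∧
      κ * aeval (uL K u) S = aeval (uL K u) R := by
    let y : FractionRing A := hu.aevalEquivField.symm κ
    refine ⟨IsFractionRing.num A y, (IsFractionRing.den A y : A), nonZeroDivisors.ne_zero (IsFractionRing.den A y).2,
      IsFractionRing.num_den_reduced A y, ?_⟩
    have h1 : ∀ P : A, hu.aevalEquivField (algebraMap _ _ P) = aeval (uL K u) P := by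
      intro P
      apply Subtype.ext
      rw [hu.aevalEquivField_algebraMap_apply_coe]
      exact MvPolynomial.aeval_algebraMap_apply (B := ℂ) (uL K u) P
    have h2 : y * algebraMap A (FractionRing A) (IsFractionRing.den A y) =
        algebraMap A (FractionRing A) (IsFractionRing.num A y) := by
      have h3 := IsFractionRing.mk'_num_den' A y
      have h4 : algebraMap A (FractionRing A) (IsFractionRing.den A y) ≠ 0 := by
        intro h
        exact nonZeroDivisors.ne_zero (IsFractionRing.den A y).2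
          (IsFractionRing.injective A (FractionRing A) (h.trans (map_zero _).symm))
      exact ((div_eq_iff h4).1 h3).symm
    have h5 := congrArg hu.aevalEquivField h2
    rw [map_mul, h1, h1] at h5
    rw [← h5]
    congr 1
    simp [y]
  have hinj : Function.Injective (aeval (uL K u) : A →ₐ[K] LK K u) := by
    have h1 : Function.Injective (aeval u : A →ₐ[K] ℂ) := hu
    intro a b hab
    apply h1
    have h2 := congrArg (algebraMap (LK K u) ℂ) hab
    rw [← MvPolynomial.aeval_algebraMap_apply, ← MvPolynomial.aeval_algebraMap_apply] at h2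
    exact h2
  have hR0 : R ≠ 0 := by
    rintro rfl
    rw [map_zero] at hfrac
    rcases mul_eq_zero.1 hfrac with h | h
    · exact hκ h
    · exact hS0 (hinj (by rw [h, map_zero]))
  have key2 : (∀ ω ∈ PiAbs K u, ω κ ≤ 1) → IsUnit S := by
    intro hle
    by_contra hnu
    obtain ⟨p, hp, hpS⟩ := WfDvdMonoid.exists_irreducible_factor hnu hS0
    have hpR : ¬ p ∣ R := fun h => hp.not_isUnit (hrel h hpS)
    obtain ⟨ω, hω, hω1, hω2⟩ := mem_PiAbs hg K k N u hu p hp.prime
    have h1 := congrArg ω hfrac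
    rw [map_mul, (hω2 R).2 hpR] at h1
    have h2 : ω (aeval (uL K u) S) < 1 := by
      apply lt_of_le_of_ne (hω1 S)
      intro h; exact (hω2 S).1 h hpS
    have h3 := hle ω hω
    have h4 : 0 ≤ ω (aeval (uL K u) S) := ω.nonneg _
    have h5 : 0 ≤ ω κ := ω.nonneg _
    nlinarith
  constructor
  · intro h1
    have hSu := key2 (fun ω hω => (h1 ω hω).le)
    have hRu : IsUnit R := by
      by_contra hnu
      obtain ⟨p, hp, hpR⟩ := WfDvdMonoid.exists_irreducible_factor hnu hR0
      obtain ⟨ω, hω, hω1, hω2⟩ := mem_PiAbs hg K k N u hu p hp.prime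
      have hpS : ¬ p ∣ S := fun h => hp.not_isUnit (isUnit_of_dvd_unit h hSu)
      have h2 := congrArg ω hfrac
      rw [map_mul, (hω2 S).2 hpS, h1 ω hω, mul_one] at h2
      exact (hω2 R).1 h2.symm hpR
    obtain ⟨r, hr, hrR⟩ := isUnit_iff_eq_C_of_isReduced.1 hRu
    obtain ⟨s, hs, hsS⟩ := isUnit_iff_eq_C_of_isReduced.1 hSu
    refine ⟨r / s, ?_⟩
    rw [hrR, hsS] at hfrac
    simp only [aeval_C] at hfrac
    have hs0 : algebraMap K (LK K u) s ≠ 0 := by
      simpa using hs.ne_zero
    rw [map_div₀]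
    field_simp
    exact hfrac
  · intro h1
    have hSu := key2 h1
    obtain ⟨s, hs, hsS⟩ := isUnit_iff_eq_C_of_isReduced.1 hSu
    refine ⟨C s⁻¹ * R, ?_⟩
    rw [hsS] at hfrac
    simp only [aeval_C] at hfrac
    have hs0 : algebraMap K (LK K u) s ≠ 0 := by
      simpa using hs.ne_zero
    rw [map_mul, aeval_C, ← hfrac, map_inv₀]
    field_simp

end Pool.Agent.Helper6.HD
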